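import Pool.Agent.helper60.MW.SpecB

/-!
# Project MW (MP_f477b1_co), row ZCV: covering property of the limit set
-/

set_option autoImplicit false

namespace Pool.Agent.MW

open MeasureTheory Set Pool.Agent.helper17.Worm

private lemma ZCV_cont (z : ℂ) : Continuous fun g : ℝ × ℂ => mv g z := by
  unfold mv
  fun_prop

private lemma ZCV_bd (w : ℂ) (c v : ℤ × ℤ) (h1 : ⌊w.re⌋ = c.1 + v.1) (h2 : ⌊w.im⌋ = c.2 + v.2) :
    ‖w - ((c.1 : ℂ) + (c.2 : ℂ) * Complex.I)‖ ≤ |(v.1 : ℝ)| + 1 + (|(v.2 : ℝ)| + 1) := by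
  refine (Complex.norm_le_abs_re_add_abs_im _).trans ?_
  have e1 : (w - ((c.1 : ℂ) + (c.2 : ℂ) * Complex.I)).re = w.re - c.1 := by simp
  have e2 : (w - ((c.1 : ℂ) + (c.2 : ℂ) * Complex.I)).im = w.im - c.2 := by simp
  rw [e1, e2]
  have f1 : (c.1 : ℝ) = (⌊w.re⌋ : ℝ) - v.1 := by
    rw [h1]; push_cast; ring
  have f2 : (c.2 : ℝ) = (⌊w.im⌋ : ℝ) - v.2 := by
    rw [h2]; push_cast; ring
  have key : ∀ (x : ℝ) (v : ℤ), |x - ((⌊x⌋ : ℝ) - v)| ≤ |(v : ℝ)| + 1 := by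
    intro x v
    have g1 := Int.floor_le x
    have g2 := (Int.lt_floor_add_one x).le
    have g3 : x - ((⌊x⌋ : ℝ) - v) = v + (x - ⌊x⌋) := by ring
    rw [g3]
    refine (abs_add_le _ _).trans ?_
    have g4 : |x - (⌊x⌋ : ℝ)| ≤ 1 := by
      rw [abs_le]; constructor <;> linarith
    linarith
  rw [f1, f2]
  exact add_le_add (key _ _) (key _ _)

theorem ZCV (hPLN : PLN_stmt) (hCPT : CPT_stmt) (hTRS : TRS_stmt) (hLTD : LTD_stmt) (hLTR : LTR_stmt)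
    (hLIH : LIH_stmt) (hNZM : NZM_stmt) (hFIN : FIN_stmt) : ZCV_stmt := by
  intro X hX hC hV a W K L hG ι c hc q f hq0 hq1 hf
  have _h := hFIN
  obtain ⟨m, Γ, h0, hΓ, hg⟩ := hPLN X hX hC hV a W K L hG q f hq0 hq1 hf
  choose g hg1 hg2 hg3 using hg
  obtain ⟨i, v, hv⟩ := hc (fun n => (⌊(g n).2.re⌋, ⌊(g n).2.im⌋))
  obtain ⟨g', hg'⟩ := hCPT (fun n => ((g n).1, (g n).2 - (((c i n).1 : ℂ) + ((c i n).2 : ℂ) * Complex.I)))
    (|(v.1 : ℝ)| + 1 + (|(v.2 : ℝ)| + 1)) (by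
      filter_upwards [hv] with n hn
      refine ⟨hg1 n, hg2 n, ?_⟩
      rw [Prod.ext_iff] at hn
      exact ZCV_bd _ _ _ hn.1 hn.2)
  have hM : ∀ n, MeasurableSet (X n) := fun n => (hX n).measurableSet
  have key : ∀ z ∈ Γ, ∀ j, m ≤ j →
      mv g' z ∈ HH (Dl X (c i) (L j)) (L j) (kap j) (W j) (K j) := by
    intro z hz j hj
    refine hLIH (fun n x y => den (X n) (L j) (x + 2 ^ L j * (c i n).1) (y + 2 ^ L j * (c i n).2))
      (Dl X (c i) (L j)) (L j) (K j) (kap j) (W j)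
      (fun n => mv ((g n).1, (g n).2 - (((c i n).1 : ℂ) + ((c i n).2 : ℂ) * Complex.I)) z) (mv g' z)
      (fun x y => hLTD X hM (c i) (L j) x y) (((ZCV_cont z).tendsto g').comp hg') ?_
    have h1 : ∀ᶠ n in (ul : Filter ℕ), j < m + n := by
      have h2 : ∀ᶠ n in Filter.atTop, j < m + n := by
        filter_upwards [Filter.eventually_gt_atTop j] with n hn
        omega
      have h3 : (ul : Filter ℕ) ≤ Filter.atTop := by
        rw [← Nat.cofinite_eq_atTop]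
        exact Filter.hyperfilter_le_cofinite
      exact h3 h2
    filter_upwards [h1] with n hn
    exact hTRS (den (X n) (L j)) (L j) (K j) (kap j) (W j) (g n) z (c i n)
      (hg3 n z hz j (Finset.mem_Ico.2 ⟨hj, hn⟩))
  have hmass : mass (Dl X (c i)) 0 ≠ 0 := by
    obtain ⟨_, k2, _, _, _, _, _, k8, _⟩ := (hG m).1
    exact hNZM (Dl X (c i)) (hLTR X hM (c i)) (L m) (K m) (kap m) (W m) (mv g' 0) k8 k2
      (key 0 h0 m le_rfl)
  refine ⟨(g'.1, g'.2 - Complex.exp (Complex.I * g'.1) * f 0), fun t ht => ?_⟩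
  have e : mv (g'.1, g'.2 - Complex.exp (Complex.I * g'.1) * f 0) (f t) = mv g' (f t - f 0) := by
    unfold mv
    ring_nf
  rw [e]
  unfold ZZ
  refine mem_iUnion.2 ⟨m, mem_iUnion₂.2 ⟨i, hmass, mem_iInter₂.2 fun j hj => ?_⟩⟩
  exact key _ (hΓ t ht) j hj

end Pool.Agent.MW
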